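import Mathlib

/-!
# Monomial ideals and their multiplier ideals on smooth toric varieties (definitions)

A smooth complete toric variety `X` is given by its fan; `ι` is the set of the rays, so the
Cox ring of `X` is the polynomial ring in the variables `x_ρ`, `ρ ∈ ι`.  Torus invariant ideal
sheaves on `X` are generated by monomials `x^u`, `u ∈ J ⊆ ℕ^ι`.
-/

set_option autoImplicit false

namespace Pool.Agent.H21VJ

variable {ι : Type} [Fintype ι]

/-- order of the ideal generated by the monomials `x^u`, `u ∈ J`, along the monomial valuation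
with weights `a` -/
noncomputable def ord (J : Set (ι → ℕ)) (a : ι → ℕ) : ℕ :=
  sInf {m | ∃ u ∈ J, m = ∑ i, a i * u i}

/-- Exponents of the multiplier ideal `I_c`.  The torus invariant prime divisors over the toric
variety are the monomial valuations with weights `a ≠ 0` supported by the rays of a cone; their
log discrepancy is `∑ a i`. -/
def multIdeal (cones : Set (Set ι)) (c : ℝ) (J : Set (ι → ℕ)) : Set (ι → ℕ) :=
  {u | ∀ a : ι → ℕ, a ≠ 0 → (∃ σ ∈ cones, ∀ i, i ∉ σ → a i = 0) →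
    c * (ord J a : ℝ) < ∑ i, (a i : ℝ) * u i + ∑ i, (a i : ℝ)}

/-- exponents of `I^- = lim_{ε → 0+} I_{1-ε}` -/
def multMinus (cones : Set (Set ι)) (J : Set (ι → ℕ)) : Set (ι → ℕ) :=
  {u | ∃ ε₀ : ℝ, 0 < ε₀ ∧ ∀ ε : ℝ, 0 < ε → ε < ε₀ → u ∈ multIdeal cones (1 - ε) J}

/-- Local height of the ideal generated by the monomials `x^u`, `u ∈ J`, at a point of the torus
whose local heights with respect to the invariant divisors `D_ρ` are `b ρ`. -/
noncomputable def lam (J : Set (ι → ℕ)) (b : ι → ℝ) : ℝ :=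
  sInf {t | ∃ u ∈ J, t = ∑ i, (u i : ℝ) * b i}

/-- A smooth complete fan in `ℤ^n` with the set of rays `ι`; `cones` are the maximal cones, given
by the sets of their rays. -/
structure Fan (n : ℕ) (ι : Type) [Fintype ι] where
  ray : ι → Fin n → ℤ
  cones : Set (Set ι)
  /-- the rays of a maximal cone are a basis of the lattice -/
  li : ∀ σ ∈ cones, LinearIndependent ℤ (fun ρ : σ => ray ρ)
  span : ∀ σ ∈ cones, Submodule.span ℤ (ray '' σ) = ⊤
  /-- every vector is in a cone -/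
  complete : ∀ y : Fin n → ℝ, ∃ b : ι → ℝ, (∀ ρ, 0 ≤ b ρ) ∧
    (∃ σ ∈ cones, ∀ ρ, ρ ∉ σ → b ρ = 0) ∧ ∀ j, y j = ∑ ρ, b ρ * ray ρ j
  /-- cones intersect in common faces -/
  unique : ∀ b b' : ι → ℝ, (∀ ρ, 0 ≤ b ρ) → (∀ ρ, 0 ≤ b' ρ) →
    (∃ σ ∈ cones, ∀ ρ, ρ ∉ σ → b ρ = 0) → (∃ σ ∈ cones, ∀ ρ, ρ ∉ σ → b' ρ = 0) →
    (∀ j, ∑ ρ, b ρ * ray ρ j = ∑ ρ, b' ρ * ray ρ j) → b = b'

/-- the coordinates of `y ∈ ℝ^n` in the fan: `y = ∑ crd y ρ • ray ρ`, nonnegative, supported by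
the rays of a cone -/
noncomputable def Fan.crd {n : ℕ} (F : Fan n ι) (y : Fin n → ℝ) : ι → ℝ :=
  (F.complete y).choose

/-- The local heights of the point `x` of the torus with respect to the invariant divisors `D_ρ`
at the absolute value `w`: the coordinates of the vector `(-log w(x_j))` in the fan. -/
noncomputable def Fan.loc {n : ℕ} (F : Fan n ι) {K : Type} (w : K → ℝ) (x : Fin n → K) : ι → ℝ :=
  F.crd fun j => -Real.log (w (x j))

/-! ### the local inequality -/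

theorem sum_nonneg' {b : ι → ℝ} (hb : ∀ i, 0 ≤ b i) (u : ι → ℕ) :
    0 ≤ ∑ i, (u i : ℝ) * b i :=
  Finset.sum_nonneg fun i _ => mul_nonneg (Nat.cast_nonneg _) (hb i)

theorem subset_multMinus (cones : Set (Set ι)) (J : Set (ι → ℕ)) : J ⊆ multMinus cones J := by
  intro u hu
  refine ⟨1, one_pos, fun ε hε _ a ha _ => ?_⟩
  have h1 : ord J a ≤ ∑ i, a i * u i := Nat.sInf_le ⟨u, hu, rfl⟩
  have h2 : (ord J a : ℝ) ≤ ∑ i, (a i : ℝ) * u i := by exact_mod_cast h1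
  have h3 : 0 < ∑ i, (a i : ℝ) := by
    obtain ⟨i, hi⟩ := Function.ne_iff.1 ha
    refine Finset.sum_pos' (fun i _ => Nat.cast_nonneg _) ⟨i, Finset.mem_univ _, ?_⟩
    exact_mod_cast Nat.pos_of_ne_zero hi
  have h4 : (0 : ℝ) ≤ ord J a := Nat.cast_nonneg _
  nlinarith

theorem local_ineq {cones : Set (Set ι)} {J : Set (ι → ℕ)} (hJ : J.Nonempty) {b : ι → ℝ}
    (hb : ∀ i, 0 ≤ b i) (h0 : ∃ σ ∈ cones, ∀ i, i ∉ σ → b i = 0) :
    lam J b ≤ lam (multMinus cones J) b + ∑ i, b i := by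
  set X := lam J b with hX
  have hbdd : BddBelow {t | ∃ u ∈ J, t = ∑ i, (u i : ℝ) * b i} :=
    ⟨0, by rintro t ⟨u, _, rfl⟩; exact sum_nonneg' hb u⟩
  rw [← sub_le_iff_le_add]
  refine le_csInf ?_ ?_
  · obtain ⟨u, hu⟩ := hJ
    exact ⟨_, u, subset_multMinus cones J hu, rfl⟩
  rintro t ⟨u, ⟨ε₀, hε₀, hu⟩, rfl⟩
  rw [sub_le_iff_le_add]
  set Cu : ℝ := ∑ i, ((u i : ℝ) + 1) with hCu
  have hCu0 : 0 ≤ Cu := Finset.sum_nonneg fun i _ => by positivity
  have key : ∀ k : ℕ, 1 ≤ k → X ≤ ∑ i, (u i : ℝ) * b i + ∑ i, b i + Cu / k := by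
    intro k hk
    have hk0 : (0 : ℝ) < k := by exact_mod_cast hk
    set a : ι → ℕ := fun i => ⌈(k : ℝ) * b i⌉₊ with ha
    have ha1 : ∀ i, (k : ℝ) * b i ≤ a i := fun i => Nat.le_ceil _
    have ha2 : ∀ i, (a i : ℝ) ≤ k * b i + 1 := fun i =>
      (Nat.ceil_lt_add_one (mul_nonneg hk0.le (hb i))).le
    have haz : ∃ σ ∈ cones, ∀ i, i ∉ σ → a i = 0 := by
      obtain ⟨σ, hσ, hi⟩ := h0
      exact ⟨σ, hσ, fun i h => by simp [ha, hi i h]⟩
    obtain ⟨m, hm, hmo⟩ : ∃ m ∈ J, ord J a = ∑ i, a i * m i := by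
      have hne : {m | ∃ u ∈ J, m = ∑ i, a i * u i}.Nonempty := by
        obtain ⟨v, hv⟩ := hJ
        exact ⟨_, v, hv, rfl⟩
      exact Nat.sInf_mem hne
    have hmo' : (ord J a : ℝ) = ∑ i, (a i : ℝ) * m i := by exact_mod_cast hmo
    have h1 : (ord J a : ℝ) ≤ ∑ i, (a i : ℝ) * u i + ∑ i, (a i : ℝ) := by
      by_cases haz' : a = 0
      · rw [hmo', haz']
        simp
      · have h2 : ∀ ε : ℝ, 0 < ε → ε < ε₀ →
            (1 - ε) * (ord J a : ℝ) ≤ ∑ i, (a i : ℝ) * u i + ∑ i, (a i : ℝ) :=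
          fun ε h3 h4 => (hu ε h3 h4 a haz' haz).le
        have h5 : Filter.Tendsto (fun ε : ℝ => (1 - ε) * (ord J a : ℝ))
            (nhdsWithin 0 (Set.Ioi 0)) (nhds ((1 - 0) * (ord J a : ℝ))) := by
          refine Filter.Tendsto.mono_left ?_ nhdsWithin_le_nhds
          exact Continuous.tendsto (by fun_prop) 0
        rw [sub_zero, one_mul] at h5
        refine le_of_tendsto h5 ?_
        filter_upwards [Ioo_mem_nhdsGT hε₀] with ε hε
        exact h2 ε hε.1 hε.2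
    have h2 : X ≤ ∑ i, (m i : ℝ) * b i := csInf_le hbdd ⟨m, hm, rfl⟩
    have h3 : (k : ℝ) * ∑ i, (m i : ℝ) * b i ≤ ord J a := by
      rw [hmo', Finset.mul_sum]
      refine Finset.sum_le_sum fun i _ => ?_
      have := mul_le_mul_of_nonneg_right (ha1 i) (Nat.cast_nonneg (α := ℝ) (m i))
      linarith
    have h4 : ∑ i, (a i : ℝ) * u i + ∑ i, (a i : ℝ) ≤
        k * (∑ i, (u i : ℝ) * b i + ∑ i, b i) + Cu := by
      rw [hCu, ← Finset.sum_add_distrib, ← Finset.sum_add_distrib, Finset.mul_sum,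
        ← Finset.sum_add_distrib]
      refine Finset.sum_le_sum fun i _ => ?_
      have := mul_le_mul_of_nonneg_right (ha2 i)
        (show (0 : ℝ) ≤ (u i : ℝ) + 1 by positivity)
      linarith
    have h5 : (k : ℝ) * X ≤ k * (∑ i, (u i : ℝ) * b i + ∑ i, b i) + Cu := by
      have := mul_le_mul_of_nonneg_left h2 hk0.le
      linarith
    have h6 : (k : ℝ) * (∑ i, (u i : ℝ) * b i + ∑ i, b i + Cu / k) =
        k * (∑ i, (u i : ℝ) * b i + ∑ i, b i) + Cu := by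
      field_simp
    rw [← h6] at h5
    exact le_of_mul_le_mul_left h5 hk0
  refine le_of_forall_pos_le_add fun ε hε => ?_
  obtain ⟨k, hk⟩ := exists_nat_gt (Cu / ε)
  have hk0 : (0 : ℝ) < k := lt_of_le_of_lt (by positivity) hk
  have h1 := key k (by exact_mod_cast hk0)
  have h2 : Cu / k ≤ ε := by
    rw [div_le_iff₀ hk0]
    rw [div_lt_iff₀ hε] at hk
    linarith
  linarith

/-! ### coordinates in the fan -/

variable {n : ℕ} (F : Fan n ι)

theorem Fan.crd_spec (y : Fin n → ℝ) : (∀ ρ, 0 ≤ F.crd y ρ) ∧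
    (∃ σ ∈ F.cones, ∀ ρ, ρ ∉ σ → F.crd y ρ = 0) ∧ ∀ j, y j = ∑ ρ, F.crd y ρ * F.ray ρ j :=
  (F.complete y).choose_spec

theorem Fan.crd_zero : F.crd 0 = 0 := by
  obtain ⟨h1, h2, h3⟩ := F.crd_spec 0
  obtain ⟨σ, hσ, _⟩ := id h2
  refine F.unique _ _ h1 (fun _ => le_rfl) h2 ⟨σ, hσ, fun _ _ => rfl⟩ fun j => ?_
  rw [← h3 j]
  simp

theorem Fan.loc_nonneg {K : Type} (w : K → ℝ) (x : Fin n → K) (ρ : ι) : 0 ≤ F.loc w x ρ :=
  (F.crd_spec _).1 ρ

theorem Fan.lam_le {J : Set (ι → ℕ)} (hJ : J.Nonempty) {K : Type} (w : K → ℝ) (x : Fin n → K) :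
    lam J (F.loc w x) - lam (multMinus F.cones J) (F.loc w x) ≤ ∑ i, F.loc w x i := by
  have := local_ineq (cones := F.cones) hJ (fun i => F.loc_nonneg w x i) (F.crd_spec _).2.1
  linarith

end Pool.Agent.H21VJ
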